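import Mathlib

/-!
Retraction and odd Tietze extension: an odd nonvanishing map on the deleted join of a finite
complex extends to the region where only the positive part has to be a simplex.
-/

namespace Pool.LU.Retract

open Set Finset

variable {V : Type*} [Fintype V] {m : ℕ}

/-- positive support -/
noncomputable def pos (u : V → ℝ) : Finset V := univ.filter (fun v => 0 < u v)

theorem mem_pos (u : V → ℝ) (v : V) : v ∈ pos u ↔ 0 < u v := by
  unfold pos; simp

variable [DecidableEq V]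

/-- cone over the deleted join of `K` -/
def DJ (K : Set (Finset V)) : Set (V → ℝ) := {u | pos u ∈ K ∧ pos (-u) ∈ K}

theorem isClosed_pos (K : Set (Finset V)) (hK : ∀ s ∈ K, ∀ t, t ⊆ s → t ∈ K) :
    IsClosed {u : V → ℝ | pos u ∈ K} := by
  have h : {u : V → ℝ | pos u ∈ K} = ⋃ s ∈ K, {u : V → ℝ | ∀ v, v ∉ s → u v ≤ 0} := by
    ext u
    simp only [mem_ofPred_eq, mem_iUnion, exists_prop]
    constructor
    · intro hu
      exact ⟨pos u, hu, fun v hv => not_lt.1 (fun h => hv ((mem_pos u v).2 h))⟩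
    · rintro ⟨s, hs, hv⟩
      refine hK s hs _ (fun v hvp => ?_)
      by_contra hvs
      exact absurd ((mem_pos u v).1 hvp) (not_lt.2 (hv v hvs))
  rw [h]
  refine Set.Finite.isClosed_biUnion (Set.toFinite K) (fun s _ => ?_)
  have : {u : V → ℝ | ∀ v, v ∉ s → u v ≤ 0} = ⋂ v ∈ {v | v ∉ s}, {u : V → ℝ | u v ≤ 0} := by
    ext u; simp
  rw [this]
  exact isClosed_biInter (fun v _ => isClosed_le (continuous_apply v) continuous_const)

/-- mass outside `s` -/
noncomputable def out (s : Finset V) (y : V → ℝ) : ℝ := ∑ v ∈ univ \ s, max (y v) 0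

theorem out_nonneg (s : Finset V) (y : V → ℝ) : 0 ≤ out s y :=
  Finset.sum_nonneg (fun _ _ => le_max_right _ _)

theorem continuous_out (s : Finset V) : Continuous (out (V := V) s) := by
  unfold out
  exact continuous_finsetSum _ (fun v _ => (continuous_apply v).max continuous_const)

/-- distance like function to the cone over `K` -/
noncomputable def mu (T : Finset (Finset V)) (hT : T.Nonempty) (y : V → ℝ) : ℝ :=
  T.inf' hT (fun s => out s y)

theorem mu_nonneg (T : Finset (Finset V)) (hT : T.Nonempty) (y : V → ℝ) : 0 ≤ mu T hT y :=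
  Finset.le_inf' _ _ (fun s _ => out_nonneg s y)

theorem continuous_mu (T : Finset (Finset V)) (hT : T.Nonempty) : Continuous (mu T hT) := by
  unfold mu
  exact Continuous.finset_inf'_apply hT (fun s _ => continuous_out s)

/-- the retracted vector -/
noncomputable def ret (T : Finset (Finset V)) (hT : T.Nonempty) (u : V → ℝ) : V → ℝ :=
  fun v => max (u v) 0 - max (max (-u v) 0 - mu T hT (-u)) 0

theorem continuous_ret (T : Finset (Finset V)) (hT : T.Nonempty) : Continuous (ret T hT) := by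
  unfold ret
  refine continuous_pi (fun v => ?_)
  refine ((continuous_apply v).max continuous_const).sub ?_
  refine Continuous.max ?_ continuous_const
  exact ((continuous_apply v).neg.max continuous_const).sub
    ((continuous_mu T hT).comp continuous_neg)

theorem ret_pos (T : Finset (Finset V)) (hT : T.Nonempty) (u : V → ℝ) (v : V) (hv : 0 < u v) :
    ret T hT u v = u v := by
  unfold ret
  have h1 := mu_nonneg T hT (-u)
  rw [max_eq_left hv.le, max_eq_right (by linarith : -u v ≤ 0), max_eq_right (by linarith)]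
  ring

theorem pos_ret (T : Finset (Finset V)) (hT : T.Nonempty) (u : V → ℝ) :
    pos (ret T hT u) ⊆ pos u := by
  intro v hv
  rw [mem_pos] at hv ⊢
  by_contra h
  push Not at h
  unfold ret at hv
  rw [max_eq_right h] at hv
  have := le_max_right (max (-u v) 0 - mu T hT (-u)) 0
  linarith

theorem neg_ret (T : Finset (Finset V)) (hT : T.Nonempty) (u : V → ℝ) :
    ∃ s ∈ T, pos (-(ret T hT u)) ⊆ s := by
  obtain ⟨s, hs, hms⟩ := Finset.exists_mem_eq_inf' hT (fun s => out s (-u))
  refine ⟨s, hs, fun v hv => ?_⟩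
  by_contra hvs
  rw [mem_pos] at hv
  simp only [Pi.neg_apply] at hv
  unfold ret at hv
  have h0 := le_max_right (u v) 0
  have h1 : 0 < max (max (-u v) 0 - mu T hT (-u)) 0 := by linarith
  have h2 : 0 < max (-u v) 0 - mu T hT (-u) := by
    by_contra h; push Not at h
    rw [max_eq_right h] at h1
    exact lt_irrefl _ h1
  have h3 : max (-u v) 0 ≤ out s (-u) := by
    unfold out
    have := Finset.single_le_sum (f := fun w => max ((-u) w) 0)
      (fun w _ => le_max_right ((-u) w) 0) (Finset.mem_sdiff.2 ⟨Finset.mem_univ v, hvs⟩)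
    simpa using this
  have h4 : mu T hT (-u) = out s (-u) := hms
  linarith

theorem ret_eq (T : Finset (Finset V)) (hT : T.Nonempty) (u : V → ℝ) (h : pos (-u) ∈ T) :
    ret T hT u = u := by
  have h1 : mu T hT (-u) = 0 := by
    apply le_antisymm _ (mu_nonneg T hT _)
    refine (Finset.inf'_le _ h).trans ?_
    unfold out
    refine (Finset.sum_eq_zero (fun v hv => ?_)).le
    rw [Finset.mem_sdiff] at hv
    exact max_eq_right (not_lt.1 (fun hc => hv.2 ((mem_pos _ v).2 hc)))
  funext v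
  unfold ret
  rw [h1, sub_zero, max_eq_left (le_max_right _ _)]
  rcases le_total 0 (u v) with h | h
  · rw [max_eq_left h, max_eq_right (by linarith)]; ring
  · rw [max_eq_right h, max_eq_left (by linarith)]; ring

/-- **Retraction and odd Tietze extension.** -/
theorem retract (K : Set (Finset V)) (hK : ∀ s ∈ K, ∀ t, t ⊆ s → t ∈ K) (hne : K.Nonempty)
    (G0 : (V → ℝ) → (Fin m → ℝ)) (hc : ContinuousOn G0 (DJ K))
    (hodd : ∀ u ∈ DJ K, G0 (-u) = -G0 u) (h0 : ∀ u ∈ DJ K, u ≠ 0 → G0 u ≠ 0) :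
    ∃ G : (V → ℝ) → (Fin m → ℝ), Continuous G ∧ (∀ u, G (-u) = -G u) ∧
      ∀ u : V → ℝ, u ≠ 0 → ((pos u ∈ K ∧ 0 ≤ ∑ v, u v) ∨ (pos (-u) ∈ K ∧ ∑ v, u v ≤ 0)) →
        G u ≠ 0 := by
  classical
  have hKf : K.Finite := Set.toFinite K
  set T : Finset (Finset V) := hKf.toFinset with hTdef
  have hTK : ∀ s, s ∈ T ↔ s ∈ K := fun s => by rw [hTdef]; exact hKf.mem_toFinset
  have hT : T.Nonempty := by
    obtain ⟨s, hs⟩ := hne
    exact ⟨s, (hTK s).2 hs⟩
  set w := ret T hT with hw
  -- the two closed pieces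
  set Cp : Set (V → ℝ) := {u | pos u ∈ K ∧ 0 ≤ ∑ v, u v} with hCp
  set Cm : Set (V → ℝ) := {u | pos (-u) ∈ K ∧ ∑ v, u v ≤ 0} with hCm
  have hCpc : IsClosed Cp := by
    refine (isClosed_pos K hK).inter ?_
    exact isClosed_le continuous_const (continuous_finsetSum _ (fun v _ => continuous_apply v))
  have hCmc : IsClosed Cm := by
    refine ((isClosed_pos K hK).preimage continuous_neg).inter ?_
    exact isClosed_le (continuous_finsetSum _ (fun v _ => continuous_apply v)) continuous_const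
  have hneg : ∀ u, u ∈ Cp ↔ -u ∈ Cm := by
    intro u
    simp only [hCp, hCm, mem_ofPred_eq, neg_neg, Pi.neg_apply, Finset.sum_neg_distrib]
    constructor <;> rintro ⟨h1, h2⟩ <;> exact ⟨h1, by linarith⟩
  have hneg' : ∀ u, u ∈ Cm ↔ -u ∈ Cp := by
    intro u
    rw [hneg (-u), neg_neg]
  have hwD : ∀ u ∈ Cp, w u ∈ DJ K := by
    intro u hu
    refine ⟨hK _ hu.1 _ (pos_ret T hT u), ?_⟩
    obtain ⟨s, hs, hsub⟩ := neg_ret T hT u
    exact hK s ((hTK s).1 hs) _ hsub
  have hw0 : ∀ u ∈ Cp, u ≠ 0 → w u ≠ 0 := by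
    intro u hu hu0 hwu
    have : ∃ v, 0 < u v := by
      by_contra h
      push Not at h
      apply hu0
      have h3 : ∑ v, u v = 0 := le_antisymm (Finset.sum_nonpos (fun v _ => h v)) hu.2
      funext v
      exact (Finset.sum_eq_zero_iff_of_nonpos (fun v _ => h v)).1 h3 v (Finset.mem_univ v)
    obtain ⟨v, hv⟩ := this
    have h1 : w u v = u v := ret_pos T hT u v hv
    rw [hwu] at h1
    simp only [Pi.zero_apply] at h1
    linarith
  have hwid : ∀ u ∈ Cp, u ∈ Cm → w u = u := by
    intro u _ hu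
    exact ret_eq T hT u ((hTK _).2 hu.1)
  have hDJ : ∀ u ∈ Cp, u ∈ Cm → u ∈ DJ K := fun u h1 h2 => ⟨h1.1, h2.1⟩
  -- the map on the union
  let g1 : (V → ℝ) → (Fin m → ℝ) := fun u => if u ∈ Cp then G0 (w u) else -G0 (w (-u))
  have hg1p : ∀ u ∈ Cp, g1 u = G0 (w u) := fun u hu => if_pos hu
  have hg1m : ∀ u ∈ Cm, g1 u = -G0 (w (-u)) := by
    intro u hu
    by_cases hp : u ∈ Cp
    · rw [hg1p u hp, hwid u hp hu, hwid (-u) ((hneg' u).1 hu) ((hneg u).1 hp),
        hodd u (hDJ u hp hu), neg_neg]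
    · exact if_neg hp
  have hcp : ContinuousOn g1 Cp := by
    refine ContinuousOn.congr ?_ hg1p
    exact hc.comp (continuous_ret T hT).continuousOn hwD
  have hcm : ContinuousOn g1 Cm := by
    refine ContinuousOn.congr ?_ hg1m
    refine ContinuousOn.neg ?_
    exact hc.comp ((continuous_ret T hT).comp continuous_neg).continuousOn
      (fun u hu => hwD (-u) ((hneg' u).1 hu))
  have hcu : ContinuousOn g1 (Cp ∪ Cm) := hcp.union_of_isClosed hcm hCpc hCmc
  have hcl : IsClosed (Cp ∪ Cm) := hCpc.union hCmc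
  obtain ⟨g, hg⟩ := ContinuousMap.exists_restrict_eq hcl
    (⟨fun x => g1 x, continuousOn_iff_continuous_domRestrict.1 hcu⟩ : C(↥(Cp ∪ Cm), Fin m → ℝ))
  have hg' : ∀ u ∈ Cp ∪ Cm, g u = g1 u := by
    intro u hu
    exact congrArg (fun F : C(↥(Cp ∪ Cm), Fin m → ℝ) => F ⟨u, hu⟩) hg
  refine ⟨fun u => (1 / 2 : ℝ) • (g u - g (-u)), ?_, ?_, ?_⟩
  · have h1 : Continuous fun u : V → ℝ => g u - g (-u) :=
      (map_continuous g).sub ((map_continuous g).comp continuous_neg)
    exact h1.const_smul (1 / 2 : ℝ)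
  · intro u
    simp only [neg_neg]
    rw [← smul_neg, neg_sub]
  · intro u hu0 hu
    have hval : ∀ u ∈ Cp, (1 / 2 : ℝ) • (g u - g (-u)) = G0 (w u) := by
      intro u hu
      rw [hg' u (Or.inl hu), hg' (-u) (Or.inr ((hneg u).1 hu)), hg1p u hu,
        hg1m (-u) ((hneg u).1 hu), neg_neg, sub_neg_eq_add, ← two_smul ℝ, smul_smul]
      norm_num
    rcases hu with hu | hu
    · have hu' : u ∈ Cp := hu
      simp only
      rw [hval u hu']
      exact h0 _ (hwD u hu') (hw0 u hu' hu0)
    · have hu' : -u ∈ Cp := (hneg' u).1 hu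
      have h1 := hval (-u) hu'
      rw [neg_neg] at h1
      simp only
      have h2 : (1 / 2 : ℝ) • (g u - g (-u)) = -G0 (w (-u)) := by
        rw [← h1, ← smul_neg, neg_sub]
      rw [h2, neg_ne_zero]
      exact h0 _ (hwD (-u) hu') (hw0 (-u) hu' (neg_ne_zero.2 hu0))

end Pool.LU.Retract
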