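import Pool.Agent.H41.LU.Stmts
import Pool.Agent.H68.LU.ProgDefs

/-!
Project LU, part A: a straight line program of medians of three computing a map without zeros
gives vectors satisfying the condition (*) of part B2.
-/

set_option autoImplicit false
set_option linter.unusedSectionVars false
set_option linter.unusedVariables false

open scoped BigOperators
open Finset

noncomputable section

namespace Pool.LU

/-- the graph of the join of the flag complex of `adj` with copies of three points -/
def JoinAdj {V G : Type} (adj : V → V → Prop) : V ⊕ (G × Fin 3) → V ⊕ (G × Fin 3) → Prop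
  | Sum.inl u, Sum.inl v => adj u v
  | Sum.inl _, Sum.inr _ => True
  | Sum.inr _, Sum.inl _ => True
  | Sum.inr x, Sum.inr y => x.1 ≠ y.1

namespace Star

theorem med3_zero : med3 0 0 0 = 0 := by
  unfold med3; simp

/-- if at most one of three numbers is smaller than `τ` then `τ` is at most the median -/
theorem le_med3 {τ : ℝ} {x : Fin 3 → ℝ} (h : ∀ j j' : Fin 3, x j < τ → x j' < τ → j = j') :
    τ ≤ med3 (x 0) (x 1) (x 2) := by
  unfold med3
  by_contra hc
  push Not at hc
  rw [max_lt_iff, min_lt_iff, min_lt_iff, max_lt_iff] at hc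
  obtain ⟨h1, h2⟩ := hc
  rcases h1 with h1 | h1 <;> rcases h2 with h2 | h2
  · exact absurd (h 0 1 h2.1 h2.2) (by decide)
  · exact absurd (h 0 2 h1 h2) (by decide)
  · exact absurd (h 0 1 h2.1 h2.2) (by decide)
  · exact absurd (h 1 2 h1 h2) (by decide)

variable {V G : Type} [Fintype V] [Fintype G]

/-- the value of the gate `i` -/
def gate (P : Prog V G) (u : V → ℝ) (T : G → ℝ) (i : G) : ℝ :=
  med3 (P.arg u T i 0) (P.arg u T i 1) (P.arg u T i 2)

theorem gate_congr (P : Prog V G) (u : V → ℝ) (T T' : G → ℝ) (i : G)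
    (h : ∀ k, P.rk k < P.rk i → T k = T' k) : gate P u T i = gate P u T' i := by
  have : ∀ j, P.arg u T i j = P.arg u T' i j := by
    intro j
    unfold Prog.arg
    congr 1
    refine Finset.sum_congr rfl (fun k _ => ?_)
    by_cases hk : P.m i j k = 0
    · rw [hk, zero_mul, zero_mul]
    · rw [h k (P.tri i j k hk)]
  unfold gate
  rw [this 0, this 1, this 2]

/-- iteration of all gates -/
def it (P : Prog V G) (u : V → ℝ) : ℕ → G → ℝ
  | 0 => fun _ => 0
  | n + 1 => fun i => gate P u (it P u n) i

theorem it_stable (P : Prog V G) (u : V → ℝ) : ∀ r : ℕ, ∀ i, P.rk i = r → ∀ n m, P.rk i < n →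
    P.rk i < m → it P u n i = it P u m i := by
  intro r
  induction r using Nat.strong_induction_on with
  | _ r ih =>
    intro i hi n m hn hm
    obtain ⟨n', rfl⟩ : ∃ n', n = n' + 1 := ⟨n - 1, by omega⟩
    obtain ⟨m', rfl⟩ : ∃ m', m = m' + 1 := ⟨m - 1, by omega⟩
    change gate P u (it P u n') i = gate P u (it P u m') i
    refine gate_congr P u _ _ i (fun k hk => ?_)
    exact ih (P.rk k) (by omega) k rfl n' m' (by omega) (by omega)

/-- bound for the ranks -/
def top (P : Prog V G) : ℕ := (Finset.univ.sup P.rk) + 1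

theorem rk_lt_top (P : Prog V G) (i : G) : P.rk i < top P :=
  Nat.lt_succ_of_le (Finset.le_sup (f := P.rk) (Finset.mem_univ i))

/-- the values -/
def val (P : Prog V G) (u : V → ℝ) : G → ℝ := it P u (top P)

theorem val_Val (P : Prog V G) (u : V → ℝ) : P.Val u (val P u) := by
  intro i
  have h := it_stable P u (P.rk i) i rfl (top P) (top P + 1) (rk_lt_top P i)
    (Nat.lt_succ_of_lt (rk_lt_top P i))
  exact h

theorem continuous_arg (P : Prog V G) {f : (V → ℝ) → G → ℝ} (hf : Continuous f) (i : G)
    (j : Fin 3) : Continuous fun u => P.arg u (f u) i j := by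
  unfold Prog.arg
  refine Continuous.add ?_ ?_
  · exact continuous_finsetSum _ (fun v _ => continuous_const.mul (continuous_apply v))
  · exact continuous_finsetSum _
      (fun k _ => continuous_const.mul ((continuous_apply k).comp hf))

theorem continuous_it (P : Prog V G) (n : ℕ) : Continuous fun u => it P u n := by
  induction n with
  | zero => exact continuous_const
  | succ n ih =>
    refine continuous_pi (fun i => ?_)
    change Continuous fun u => gate P u (it P u n) i
    unfold gate
    exact continuous_med3 (continuous_arg P ih i 0) (continuous_arg P ih i 1)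
      (continuous_arg P ih i 2)

theorem continuous_val (P : Prog V G) : Continuous (val P) := continuous_it P _

theorem arg_smul (P : Prog V G) (r : ℝ) (u : V → ℝ) (T : G → ℝ) (i : G) (j : Fin 3) :
    P.arg (r • u) (r • T) i j = r * P.arg u T i j := by
  unfold Prog.arg
  rw [mul_add, Finset.mul_sum, Finset.mul_sum]
  congr 1 <;> refine Finset.sum_congr rfl (fun k _ => ?_) <;> simp <;> ring

theorem it_smul (P : Prog V G) {r : ℝ} (hr : 0 ≤ r) (u : V → ℝ) (n : ℕ) :
    it P (r • u) n = r • it P u n := by
  induction n with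
  | zero => funext i; simp [it]
  | succ n ih =>
    funext i
    change gate P (r • u) (it P (r • u) n) i = r * gate P u (it P u n) i
    unfold gate
    rw [ih, arg_smul, arg_smul, arg_smul, med3_mul hr]

theorem val_smul (P : Prog V G) {r : ℝ} (hr : 0 ≤ r) (u : V → ℝ) : val P (r • u) = r • val P u :=
  it_smul P hr u _

/-- stability of the values under perturbations -/
theorem pert (P : Prog V G) : ∃ C : ℝ, 0 ≤ C ∧ ∀ (u : V → ℝ) (T θ : G → ℝ) (s : ℝ), 0 ≤ s →
    P.Val u T → (∀ i, |θ i - gate P u θ i| ≤ s) → ∀ i, |θ i - T i| ≤ C * s := by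
  classical
  set M : ℝ := ∑ i, ∑ j, ∑ k, |P.m i j k| with hM
  have hM0 : 0 ≤ M := Finset.sum_nonneg (fun i _ => Finset.sum_nonneg
    (fun j _ => Finset.sum_nonneg (fun k _ => abs_nonneg _)))
  have key : ∀ n : ℕ, ∃ C : ℝ, 0 ≤ C ∧ ∀ (u : V → ℝ) (T θ : G → ℝ) (s : ℝ), 0 ≤ s →
      P.Val u T → (∀ i, |θ i - gate P u θ i| ≤ s) → ∀ i, P.rk i < n → |θ i - T i| ≤ C * s := by
    intro n
    induction n with
    | zero => exact ⟨0, le_refl 0, fun u T θ s hs hT hθ i hi => absurd hi (Nat.not_lt_zero _)⟩
    | succ n ih =>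
      obtain ⟨C, hC, h⟩ := ih
      refine ⟨1 + M * C, by positivity, fun u T θ s hs hT hθ i hi => ?_⟩
      have harg : ∀ j, |P.arg u θ i j - P.arg u T i j| ≤ M * C * s := by
        intro j
        have e : P.arg u θ i j - P.arg u T i j = ∑ k, P.m i j k * (θ k - T k) := by
          unfold Prog.arg
          rw [add_sub_add_left_eq_sub, ← Finset.sum_sub_distrib]
          exact Finset.sum_congr rfl (fun k _ => by ring)
        rw [e]
        refine (Finset.abs_sum_le_sum_abs _ _).trans ?_
        have h1 : ∀ k ∈ (Finset.univ : Finset G), |P.m i j k * (θ k - T k)| ≤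
            |P.m i j k| * (C * s) := by
          intro k _
          rw [abs_mul]
          by_cases hk : P.m i j k = 0
          · rw [hk]; simp
          · exact mul_le_mul_of_nonneg_left
              (h u T θ s hs hT hθ k (by have := P.tri i j k hk; omega)) (abs_nonneg _)
        refine (Finset.sum_le_sum h1).trans ?_
        rw [← Finset.sum_mul]
        have h2 : ∑ k, |P.m i j k| ≤ M := by
          have ha := Finset.single_le_sum (f := fun j => ∑ k, |P.m i j k|)
            (fun j _ => Finset.sum_nonneg (fun k _ => abs_nonneg _)) (Finset.mem_univ j)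
          have hb := Finset.single_le_sum (f := fun i => ∑ j, ∑ k, |P.m i j k|)
            (fun i _ => Finset.sum_nonneg
              (fun j _ => Finset.sum_nonneg (fun k _ => abs_nonneg _))) (Finset.mem_univ i)
          exact ha.trans hb
        calc (∑ k, |P.m i j k|) * (C * s) ≤ M * (C * s) :=
              mul_le_mul_of_nonneg_right h2 (mul_nonneg hC hs)
          _ = M * C * s := by ring
      have h3 : |gate P u θ i - gate P u T i| ≤ M * C * s :=
        abs_med3_sub_le (harg 0) (harg 1) (harg 2)
      have h4 : θ i - T i = (θ i - gate P u θ i) + (gate P u θ i - gate P u T i) := by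
        have h5 : T i = gate P u T i := hT i
        rw [← h5]; ring
      rw [h4]
      refine (abs_add_le _ _).trans ?_
      have := hθ i
      calc |θ i - gate P u θ i| + |gate P u θ i - gate P u T i| ≤ s + M * C * s :=
            add_le_add this h3
        _ = (1 + M * C) * s := by ring
  obtain ⟨C, hC, h⟩ := key (top P)
  exact ⟨C, hC, fun u T θ s hs hT hθ i => h u T θ s hs hT hθ i (rk_lt_top P i)⟩

theorem Val_zero (P : Prog V G) : P.Val 0 0 := by
  intro i
  unfold Prog.arg
  simp [med3_zero]

/-! ### the vectors -/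

variable {d : ℕ}

/-- sign -/
def sg (s : Bool) : ℝ := if s then 1 else -1

/-- the ambient space before dividing by the relations -/
abbrev Amb (G : Type) (d : ℕ) : Type := (Fin d → ℝ) × ℝ × ((G × Bool) × Fin 3 → ℝ)

/-- half difference of the two copies of a gate -/
def hd (τ : G × Bool → ℝ) (k : G) : ℝ := (τ (k, true) - τ (k, false)) / 2

/-- the relations -/
def rel (P : Prog V G) (b : Fin d → G → ℝ) (η : ℝ) : (G × Bool → ℝ) →ₗ[ℝ] Amb G d where
  toFun τ := (fun c => -∑ k, b c k * hd τ k, -(η * ∑ g, τ g),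
    fun x => τ x.1 - sg x.1.2 * ∑ k, P.m x.1.1 x.2 k * hd τ k)
  map_add' τ τ' := by
    refine Prod.ext ?_ (Prod.ext ?_ ?_)
    · funext c
      simp only [hd, Pi.add_apply, Prod.fst_add]
      rw [← neg_add, ← Finset.sum_add_distrib]
      congr 1
      exact Finset.sum_congr rfl (fun k _ => by ring)
    · simp only [Pi.add_apply, Prod.fst_add, Prod.snd_add, Finset.sum_add_distrib]
      ring
    · funext x
      simp only [hd, Pi.add_apply, Prod.snd_add]
      have : ∑ k, P.m x.1.1 x.2 k * ((τ (k, true) + τ' (k, true) - (τ (k, false) + τ' (k, false))) / 2)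
          = ∑ k, P.m x.1.1 x.2 k * ((τ (k, true) - τ (k, false)) / 2) +
            ∑ k, P.m x.1.1 x.2 k * ((τ' (k, true) - τ' (k, false)) / 2) := by
        rw [← Finset.sum_add_distrib]
        exact Finset.sum_congr rfl (fun k _ => by ring)
      rw [this]; ring
  map_smul' r τ := by
    refine Prod.ext ?_ (Prod.ext ?_ ?_)
    · funext c
      simp only [hd, Pi.smul_apply, Prod.smul_fst, smul_eq_mul, RingHom.id_apply]
      rw [mul_neg, Finset.mul_sum]
      congr 1
      exact Finset.sum_congr rfl (fun k _ => by ring)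
    · simp only [Pi.smul_apply, Prod.smul_fst, Prod.smul_snd, smul_eq_mul, RingHom.id_apply,
        ← Finset.mul_sum]
      ring
    · funext x
      simp only [hd, Pi.smul_apply, Prod.smul_snd, smul_eq_mul, RingHom.id_apply]
      have : ∑ k, P.m x.1.1 x.2 k * ((r * τ (k, true) - r * τ (k, false)) / 2)
          = r * ∑ k, P.m x.1.1 x.2 k * ((τ (k, true) - τ (k, false)) / 2) := by
        rw [Finset.mul_sum]
        exact Finset.sum_congr rfl (fun k _ => by ring)
      rw [this]; ring

/-- the vectors in the ambient space -/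
def vec [DecidableEq G] (P : Prog V G) (a : Fin d → V → ℝ) : V ⊕ ((G × Bool) × Fin 3) → Amb G d
  | Sum.inl v => (fun c => a c v, 1, fun x => sg x.1.2 * P.l x.1.1 x.2 v)
  | Sum.inr x => (0, 0, Pi.single x 1)

theorem rel_injective (P : Prog V G) (b : Fin d → G → ℝ) (η : ℝ) :
    Function.Injective (rel P b η) := by
  rw [injective_iff_map_eq_zero]
  intro τ hτ
  have h3 : ∀ x : (G × Bool) × Fin 3, τ x.1 = sg x.1.2 * ∑ k, P.m x.1.1 x.2 k * hd τ k := by
    intro x
    have := congrFun (congrArg (fun y : Amb G d => y.2.2) hτ) x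
    change τ x.1 - sg x.1.2 * ∑ k, P.m x.1.1 x.2 k * hd τ k = 0 at this
    linarith
  have key : ∀ r : ℕ, ∀ i, P.rk i = r → ∀ s, τ (i, s) = 0 := by
    intro r
    induction r using Nat.strong_induction_on with
    | _ r ih =>
      intro i hi s
      rw [h3 ((i, s), 0)]
      have : ∑ k, P.m i 0 k * hd τ k = 0 := by
        refine Finset.sum_eq_zero (fun k _ => ?_)
        by_cases hk : P.m i 0 k = 0
        · rw [hk, zero_mul]
        · have h1 := P.tri i 0 k hk
          unfold hd
          rw [ih (P.rk k) (by omega) k rfl true, ih (P.rk k) (by omega) k rfl false]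
          simp
      change sg s * ∑ k, P.m i 0 k * hd τ k = 0
      rw [this, mul_zero]
  funext x
  exact key _ x.1 rfl x.2

/-- the sum of the vectors -/
theorem sum_vec [DecidableEq G] (P : Prog V G) (a : Fin d → V → ℝ)
    (z : V ⊕ ((G × Bool) × Fin 3) → ℝ) :
    ∑ x, z x • vec P a x = (fun c => ∑ v, a c v * z (Sum.inl v), ∑ v, z (Sum.inl v),
      fun x => sg x.1.2 * (∑ v, P.l x.1.1 x.2 v * z (Sum.inl v)) + z (Sum.inr x)) := by
  rw [Fintype.sum_sum_type]
  refine Prod.ext ?_ (Prod.ext ?_ ?_)
  · funext c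
    simp only [vec, Prod.fst_add, Prod.fst_sum, Prod.smul_fst, Pi.add_apply, Finset.sum_apply,
      Pi.smul_apply, smul_eq_mul, smul_zero, Finset.sum_const_zero, Pi.zero_apply, add_zero]
    exact Finset.sum_congr rfl (fun v _ => by ring)
  · simp only [vec, Prod.fst_add, Prod.snd_add, Prod.snd_sum, Prod.fst_sum, Prod.smul_snd,
      Prod.smul_fst, smul_eq_mul, mul_one, mul_zero, Finset.sum_const_zero, add_zero]
  · funext x
    simp only [vec, Prod.snd_add, Prod.snd_sum, Prod.smul_snd, Pi.add_apply, Finset.sum_apply,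
      Pi.smul_apply, smul_eq_mul]
    congr 1
    · rw [Finset.mul_sum]
      exact Finset.sum_congr rfl (fun v _ => by ring)
    · rw [Finset.sum_eq_single x]
      · simp
      · intro y _ hy
        rw [Pi.single_eq_of_ne (Ne.symm hy)]; simp
      · intro h; exact absurd (Finset.mem_univ x) h

/-- the region where only the positive part has to be a clique -/
def region (adj : V → V → Prop) : Set (V → ℝ) :=
  {u | (∀ x y, 0 < u x → 0 < u y → x ≠ y → adj x y) ∧ 0 ≤ ∑ v, u v}

theorem isClosed_region (adj : V → V → Prop) : IsClosed (region adj) := by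
  have h1 : IsClosed {u : V → ℝ | ∀ x y, 0 < u x → 0 < u y → x ≠ y → adj x y} := by
    have : {u : V → ℝ | ∀ x y, 0 < u x → 0 < u y → x ≠ y → adj x y} =
        ⋂ x, ⋂ y, ⋂ (_ : x ≠ y ∧ ¬ adj x y), ({u : V → ℝ | u x ≤ 0} ∪ {u | u y ≤ 0}) := by
      ext u
      simp only [Set.mem_iInter, Set.mem_union]
      constructor
      · intro h x y hxy
        by_contra hc
        push Not at hc
        exact hxy.2 (h x y (not_le.1 hc.1) (not_le.1 hc.2) hxy.1)
      · intro h x y hx hy hxy
        by_contra hc
        rcases h x y ⟨hxy, hc⟩ with h1 | h1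
        · exact absurd hx (not_lt.2 h1)
        · exact absurd hy (not_lt.2 h1)
    rw [this]
    refine isClosed_iInter (fun x => isClosed_iInter (fun y => isClosed_iInter (fun _ => ?_)))
    exact (isClosed_le (continuous_apply x) continuous_const).union
      (isClosed_le (continuous_apply y) continuous_const)
  exact h1.inter (isClosed_le continuous_const
    (continuous_finsetSum _ (fun v _ => continuous_apply v)))

theorem region_smul {adj : V → V → Prop} {u : V → ℝ} (hu : u ∈ region adj) {r : ℝ} (hr : 0 < r) :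
    r • u ∈ region adj := by
  refine ⟨fun x y hx hy hxy => hu.1 x y ?_ ?_ hxy, ?_⟩
  · exact (mul_pos_iff_of_pos_left hr).1 hx
  · exact (mul_pos_iff_of_pos_left hr).1 hy
  · have : ∑ v, (r • u) v = r * ∑ v, u v := by
      rw [Finset.mul_sum]; exact Finset.sum_congr rfl (fun v _ => rfl)
    rw [this]; exact mul_nonneg hr.le hu.2

/-- the output -/
def outF (P : Prog V G) (a : Fin d → V → ℝ) (b : Fin d → G → ℝ) (u : V → ℝ) : Fin d → ℝ :=
  fun c => ∑ v, a c v * u v + ∑ k, b c k * val P u k

theorem continuous_outF (P : Prog V G) (a : Fin d → V → ℝ) (b : Fin d → G → ℝ) :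
    Continuous (outF P a b) := by
  unfold outF
  refine continuous_pi (fun c => Continuous.add ?_ ?_)
  · exact continuous_finsetSum _ (fun v _ => continuous_const.mul (continuous_apply v))
  · exact continuous_finsetSum _
      (fun k _ => continuous_const.mul ((continuous_apply k).comp (continuous_val P)))

theorem outF_smul (P : Prog V G) (a : Fin d → V → ℝ) (b : Fin d → G → ℝ) {r : ℝ} (hr : 0 ≤ r)
    (u : V → ℝ) : outF P a b (r • u) = r • outF P a b u := by
  funext c
  unfold outF
  rw [val_smul P hr]
  simp only [Pi.smul_apply, smul_eq_mul]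
  rw [mul_add, Finset.mul_sum, Finset.mul_sum]
  congr 1 <;> exact Finset.sum_congr rfl (fun k _ => by ring)

/-- lower bound of the output on the region -/
theorem lower (adj : V → V → Prop) (P : Prog V G) (a : Fin d → V → ℝ) (b : Fin d → G → ℝ)
    (hF : ∀ u ∈ region adj, u ≠ 0 → outF P a b u ≠ 0) :
    ∃ δ : ℝ, 0 < δ ∧ ∀ u ∈ region adj, δ * ‖u‖ ≤ ‖outF P a b u‖ := by
  have hS : IsCompact (Metric.sphere (0 : V → ℝ) 1 ∩ region adj) :=
    (isCompact_sphere _ _).inter_right (isClosed_region adj)
  have main : ∃ δ : ℝ, 0 < δ ∧ ∀ u ∈ Metric.sphere (0 : V → ℝ) 1 ∩ region adj,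
      δ ≤ ‖outF P a b u‖ := by
    rcases (Metric.sphere (0 : V → ℝ) 1 ∩ region adj).eq_empty_or_nonempty with he | hne
    · exact ⟨1, one_pos, fun u hu => by rw [he] at hu; exact absurd hu (Set.notMem_empty u)⟩
    · obtain ⟨u0, hu0, hmin⟩ := hS.exists_isMinOn hne (continuous_outF P a b).norm.continuousOn
      have hu0' : u0 ≠ 0 := by
        intro h
        have := hu0.1
        rw [h] at this
        simp at this
      exact ⟨‖outF P a b u0‖, norm_pos_iff.2 (hF u0 hu0.2 hu0'), fun u hu => hmin hu⟩
  obtain ⟨δ, hδ, h⟩ := main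
  refine ⟨δ, hδ, fun u hu => ?_⟩
  by_cases h0 : u = 0
  · rw [h0, norm_zero, mul_zero]; exact norm_nonneg _
  · have hn : 0 < ‖u‖ := norm_pos_iff.2 h0
    have h1 : (‖u‖⁻¹ • u) ∈ Metric.sphere (0 : V → ℝ) 1 ∩ region adj := by
      refine ⟨?_, region_smul hu (inv_pos.2 hn)⟩
      rw [mem_sphere_zero_iff_norm, norm_smul, norm_inv, norm_norm, inv_mul_cancel₀ hn.ne']
    have h2 := h _ h1
    rw [outF_smul P a b (inv_nonneg.2 hn.le), norm_smul, norm_inv, norm_norm] at h2
    calc δ * ‖u‖ ≤ (‖u‖⁻¹ * ‖outF P a b u‖) * ‖u‖ := mul_le_mul_of_nonneg_right h2 hn.le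
      _ = ‖outF P a b u‖ := by field_simp

theorem sum_le_card_norm (u : V → ℝ) : ∑ v, u v ≤ Fintype.card V * ‖u‖ := by
  have : ∀ v ∈ (Finset.univ : Finset V), u v ≤ ‖u‖ := fun v _ =>
    (le_abs_self _).trans (by rw [← Real.norm_eq_abs]; exact norm_le_pi_norm u v)
  refine (Finset.sum_le_sum this).trans ?_
  rw [Finset.sum_const, nsmul_eq_mul, Finset.card_univ]

theorem core [DecidableEq G] (adj : V → V → Prop) (P : Prog V G) (a : Fin d → V → ℝ)
    (b : Fin d → G → ℝ) (hne : Nonempty G)
    (hsurj : ∀ y : Fin d → ℝ, ∃ θ : G → ℝ, ∀ c, ∑ k, b c k * θ k = y c)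
    (hF : ∀ u ∈ region adj, u ≠ 0 → outF P a b u ≠ 0) :
    ∃ (E : Type) (_ : AddCommGroup E) (_ : Module ℝ E) (_ : FiniteDimensional ℝ E)
      (w : V ⊕ ((G × Bool) × Fin 3) → E),
      Module.finrank ℝ E = (d + 2 * Fintype.card (G × Bool)) + 1 ∧
      Submodule.span ℝ (Set.range w) = ⊤ ∧ StarC (JoinAdj adj) w := by
  classical
  obtain ⟨δ, hδ, hlow⟩ := lower adj P a b hF
  obtain ⟨C, hC, hpert⟩ := pert P
  set B : ℝ := ∑ c, ∑ k, |b c k| with hB
  have hB0 : 0 ≤ B := Finset.sum_nonneg (fun _ _ => Finset.sum_nonneg (fun _ _ => abs_nonneg _))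
  set η : ℝ := (B * C * Fintype.card V + 1) / δ with hη
  have hηp : 0 < η := div_pos (by positivity) hδ
  set W := LinearMap.range (rel P b η) with hW
  refine ⟨Amb G d ⧸ W, inferInstance, inferInstance, inferInstance,
    fun x => W.mkQ (vec P a x), ?_, ?_, ?_⟩
  · -- dimension
    have h1 := Submodule.finrank_quotient_add_finrank W
    have h2 : Module.finrank ℝ W = Fintype.card (G × Bool) := by
      rw [hW, LinearMap.finrank_range_of_inj (rel_injective P b η), Module.finrank_pi]
    have h3 : Module.finrank ℝ (Amb G d) = d + (1 + Fintype.card (G × Bool) * 3) := by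
      rw [Module.finrank_prod, Module.finrank_prod, Module.finrank_pi, Module.finrank_pi,
        Module.finrank_self, Fintype.card_fin, Fintype.card_prod, Fintype.card_fin]
    rw [h2, h3] at h1
    omega
  · -- span
    rw [eq_top_iff]
    set S := Submodule.span ℝ (Set.range fun x => W.mkQ (vec P a x)) with hS
    have hζ : ∀ ζ : (G × Bool) × Fin 3 → ℝ, W.mkQ ((0, 0, ζ) : Amb G d) ∈ S := by
      intro ζ
      have e : ((0, 0, ζ) : Amb G d) = ∑ x, ζ x • vec P a (Sum.inr x) := by
        refine Prod.ext ?_ (Prod.ext ?_ ?_)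
        · simp [vec, Prod.fst_sum]
        · simp [vec, Prod.snd_sum, Prod.fst_sum]
        · funext x
          simp only [vec, Prod.snd_sum, Prod.smul_snd, Finset.sum_apply, Pi.smul_apply,
            smul_eq_mul]
          rw [Finset.sum_eq_single x]
          · simp
          · intro y _ hy
            rw [Pi.single_eq_of_ne (Ne.symm hy)]; simp
          · intro h; exact absurd (Finset.mem_univ x) h
      rw [e, map_sum]
      refine Submodule.sum_mem _ (fun x _ => ?_)
      rw [map_smul]
      exact Submodule.smul_mem _ _ (Submodule.subset_span ⟨Sum.inr x, rfl⟩)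
    rintro q -
    obtain ⟨⟨y, r, ζ⟩, rfl⟩ := W.mkQ_surjective q
    obtain ⟨θ, hθ⟩ := hsurj (-y)
    have hcard : (0 : ℝ) < Fintype.card G := by exact_mod_cast Fintype.card_pos
    set ρ : ℝ := -r / (2 * η * Fintype.card G) with hρ
    set τ : G × Bool → ℝ := fun x => sg x.2 * θ x.1 + ρ with hτ
    have hhd : ∀ k, hd τ k = θ k := by
      intro k; simp [hd, hτ, sg]
    have hsum : ∑ g, τ g = 2 * Fintype.card G * ρ := by
      rw [Fintype.sum_prod_type]
      have : ∀ k : G, ∑ s : Bool, τ (k, s) = 2 * ρ := by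
        intro k
        rw [Fintype.sum_bool]
        simp [hτ, sg]; ring
      rw [Finset.sum_congr rfl (fun k _ => this k), Finset.sum_const, nsmul_eq_mul,
        Finset.card_univ]
      ring
    have hrel : ∃ ζ', rel P b η τ = ((y, r, ζ') : Amb G d) := by
      refine ⟨fun x => τ x.1 - sg x.1.2 * ∑ k, P.m x.1.1 x.2 k * hd τ k, ?_⟩
      refine Prod.ext ?_ (Prod.ext ?_ rfl)
      · funext c
        change -∑ k, b c k * hd τ k = y c
        rw [Finset.sum_congr rfl (fun k _ => by rw [hhd k]), hθ c]
        simp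
      · change -(η * ∑ g, τ g) = r
        rw [hsum, hρ]
        field_simp
    obtain ⟨ζ', hζ'⟩ := hrel
    have heq : W.mkQ ((y, r, ζ) : Amb G d) = W.mkQ ((0, 0, ζ - ζ') : Amb G d) := by
      rw [← sub_eq_zero, ← map_sub]
      have : ((y, r, ζ) : Amb G d) - (0, 0, ζ - ζ') = rel P b η τ := by
        rw [hζ']
        refine Prod.ext ?_ (Prod.ext ?_ ?_)
        · simp
        · simp
        · simp
      rw [this]
      rw [Submodule.mkQ_apply, Submodule.Quotient.mk_eq_zero]
      exact ⟨τ, rfl⟩
    rw [heq]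
    exact hζ _
  · -- condition (*)
    intro z hz hpos
    have hz' : W.mkQ (∑ x, z x • vec P a x) = 0 := by
      rw [map_sum, ← hz]
      exact Finset.sum_congr rfl (fun x _ => map_smul _ _ _)
    rw [Submodule.mkQ_apply, Submodule.Quotient.mk_eq_zero, sum_vec] at hz'
    obtain ⟨τ, hτ⟩ := hz'
    set u : V → ℝ := fun v => z (Sum.inl v) with hu
    set θ : G → ℝ := hd τ with hθ
    have e1 : ∀ c, -∑ k, b c k * θ k = ∑ v, a c v * u v := fun c =>
      congrFun (congrArg Prod.fst hτ) c
    have e2 : -(η * ∑ g, τ g) = ∑ v, u v := congrArg (fun y : Amb G d => y.2.1) hτ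
    have e3 : ∀ x : (G × Bool) × Fin 3, z (Sum.inr x) = τ x.1 - sg x.1.2 * P.arg u θ x.1.1 x.2 := by
      intro x
      have := congrFun (congrArg (fun y : Amb G d => y.2.2) hτ) x
      change τ x.1 - sg x.1.2 * ∑ k, P.m x.1.1 x.2 k * θ k =
        sg x.1.2 * (∑ v, P.l x.1.1 x.2 v * u v) + z (Sum.inr x) at this
      unfold Prog.arg
      linarith [mul_add (sg x.1.2) (∑ v, P.l x.1.1 x.2 v * u v) (∑ k, P.m x.1.1 x.2 k * θ k)]
    have hone : ∀ g : G × Bool, ∀ j j' : Fin 3, 0 < z (Sum.inr (g, j)) →
        0 < z (Sum.inr (g, j')) → j = j' := by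
      intro g j j' h1 h2
      by_contra hne
      have := hpos (Sum.inr (g, j)) (Sum.inr (g, j')) h1 h2 (by
        intro h
        exact hne (Prod.ext_iff.1 (Sum.inr.inj h)).2)
      exact this rfl
    have hle : ∀ i, τ (i, true) ≤ gate P u θ i := by
      intro i
      refine le_med3 (x := fun j => P.arg u θ i j) (fun j j' h1 h2 => ?_)
      refine hone (i, true) j j' ?_ ?_
      · rw [e3]; simp only [sg, if_true, one_mul]; linarith
      · rw [e3]; simp only [sg, if_true, one_mul]; linarith
    have hle' : ∀ i, τ (i, false) ≤ -gate P u θ i := by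
      intro i
      have : τ (i, false) ≤ med3 (-P.arg u θ i 0) (-P.arg u θ i 1) (-P.arg u θ i 2) := by
        refine le_med3 (x := fun j => -P.arg u θ i j) (fun j j' h1 h2 => ?_)
        refine hone (i, false) j j' ?_ ?_
        · rw [e3]; simp only [sg]; simp; linarith
        · rw [e3]; simp only [sg]; simp; linarith
      rw [med3_neg] at this
      exact this
    -- slacks
    set sl : G → ℝ := fun i => (gate P u θ i - τ (i, true)) + (-gate P u θ i - τ (i, false))
      with hsl
    have hsl0 : ∀ i, 0 ≤ sl i := fun i => by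
      have h1 := hle i
      have h2 := hle' i
      simp only [hsl]; linarith
    have hslsum : ∑ i, sl i = -∑ g, τ g := by
      rw [Fintype.sum_prod_type, ← Finset.sum_neg_distrib]
      refine Finset.sum_congr rfl (fun i _ => ?_)
      rw [Fintype.sum_bool]
      simp only [hsl]; ring
    have hsum : ∑ v, u v = η * ∑ i, sl i := by rw [hslsum, ← e2]; ring
    have hreg : u ∈ region adj := by
      refine ⟨fun x y hx hy hxy => ?_, ?_⟩
      · exact hpos (Sum.inl x) (Sum.inl y) hx hy (fun h => hxy (Sum.inl.inj h))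
      · rw [hsum]
        exact mul_nonneg hηp.le (Finset.sum_nonneg (fun i _ => hsl0 i))
    set s : ℝ := ∑ i, sl i with hs
    have hs0 : 0 ≤ s := Finset.sum_nonneg (fun i _ => hsl0 i)
    have hdev : ∀ i, |θ i - gate P u θ i| ≤ s := by
      intro i
      have h1 := hle i
      have h2 := hle' i
      have h3 : sl i ≤ s := Finset.single_le_sum (fun i _ => hsl0 i) (Finset.mem_univ i)
      have h4 : sl i = (gate P u θ i - τ (i, true)) + (-gate P u θ i - τ (i, false)) := rfl
      have h5 : θ i = (τ (i, true) - τ (i, false)) / 2 := rfl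
      rw [abs_le]
      constructor <;> rw [h5] <;> linarith
    have hT := hpert u (val P u) θ s hs0 (val_Val P u) hdev
    have hout : ‖outF P a b u‖ ≤ B * (C * s) := by
      rw [pi_norm_le_iff_of_nonneg (by positivity)]
      intro c
      have e : outF P a b u c = -∑ k, b c k * (θ k - val P u k) := by
        unfold outF
        rw [← e1 c, ← Finset.sum_neg_distrib, ← Finset.sum_neg_distrib, ← Finset.sum_add_distrib]
        exact Finset.sum_congr rfl (fun k _ => by ring)
      rw [e, norm_neg, Real.norm_eq_abs]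
      refine (Finset.abs_sum_le_sum_abs _ _).trans ?_
      have h1 : ∀ k ∈ (Finset.univ : Finset G), |b c k * (θ k - val P u k)| ≤
          |b c k| * (C * s) := fun k _ => by
        rw [abs_mul]
        exact mul_le_mul_of_nonneg_left (hT k) (abs_nonneg _)
      refine (Finset.sum_le_sum h1).trans ?_
      rw [← Finset.sum_mul]
      refine mul_le_mul_of_nonneg_right ?_ (mul_nonneg hC hs0)
      exact Finset.single_le_sum (f := fun c => ∑ k, |b c k|)
        (fun c _ => Finset.sum_nonneg (fun k _ => abs_nonneg _)) (Finset.mem_univ c)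
    have hsn : η * s ≤ Fintype.card V * ‖u‖ := by
      rw [← hsum]; exact sum_le_card_norm u
    have hu0 : u = 0 := by
      by_contra hne0
      have hn : 0 < ‖u‖ := norm_pos_iff.2 hne0
      have h1 := hlow u hreg
      have h2 : δ * ‖u‖ ≤ B * C * s := by
        refine h1.trans (hout.trans (le_of_eq (by ring)))
      have h3 : s ≤ Fintype.card V * ‖u‖ / η := by
        rw [le_div_iff₀ hηp]; linarith
      have h4 : B * C * s ≤ B * C * (Fintype.card V * ‖u‖ / η) :=
        mul_le_mul_of_nonneg_left h3 (mul_nonneg hB0 hC)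
      have h5 : B * C * (Fintype.card V * ‖u‖ / η) < δ * ‖u‖ := by
        rw [hη]
        rw [div_div_eq_mul_div, ← mul_div_assoc, div_lt_iff₀ (by positivity)]
        nlinarith [mul_pos hδ hn]
      linarith
    have hs1 : s = 0 := by
      have : η * s = 0 := by
        rw [← hsum, hu0]; simp
      rcases mul_eq_zero.1 this with h | h
      · exact absurd h hηp.ne'
      · exact h
    have hθ0 : θ = 0 := by
      funext i
      have h1 := hpert u 0 θ 0 le_rfl (by rw [hu0]; exact Val_zero P)
        (fun i => by have := hdev i; rw [hs1] at this; exact this) i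
      rw [mul_zero] at h1
      have := abs_nonpos_iff.1 h1
      simpa using this
    have hgate0 : ∀ i, gate P u θ i = 0 := by
      intro i
      rw [hu0, hθ0]
      have := Val_zero P i
      exact this.symm
    have hsl1 : ∀ i, sl i = 0 := by
      intro i
      exact (Finset.sum_eq_zero_iff_of_nonneg (fun i _ => hsl0 i)).1 (hs ▸ hs1) i
        (Finset.mem_univ i)
    have hτ0 : ∀ i s, τ (i, s) = 0 := by
      intro i s
      have h1 := hle i
      have h2 := hle' i
      have h3 := hsl1 i
      simp only [hsl] at h3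
      rw [hgate0 i] at h1 h2 h3
      cases s
      · linarith
      · linarith
    funext x
    rcases x with v | ⟨⟨i, s⟩, j⟩
    · exact congrFun hu0 v
    · rw [e3, hτ0 i s, hu0, hθ0]
      simp [Prog.arg]

/-! ### dummy gates -/

/-- the program with `d` additional dummy gates -/
def ext (P : Prog V G) (d : ℕ) : Prog V (G ⊕ Fin d) where
  l := fun i j v => Sum.elim (fun g => P.l g j v) (fun _ => 0) i
  m := fun i j k => Sum.elim (fun g => Sum.elim (fun g' => P.m g j g') (fun _ => 0) k)
    (fun _ => 0) i
  rk := Sum.elim P.rk (fun _ => 0)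
  tri := by
    rintro (i | i) j (k | k) h
    · exact P.tri i j k h
    · exact absurd rfl h
    · exact absurd rfl h
    · exact absurd rfl h

theorem arg_ext_inl (P : Prog V G) (u : V → ℝ) (T : G ⊕ Fin d → ℝ) (i : G) (j : Fin 3) :
    (ext P d).arg u T (Sum.inl i) j = P.arg u (fun k => T (Sum.inl k)) i j := by
  unfold Prog.arg
  rw [Fintype.sum_sum_type]
  simp [ext]

theorem arg_ext_inr (P : Prog V G) (u : V → ℝ) (T : G ⊕ Fin d → ℝ) (i : Fin d) (j : Fin 3) :
    (ext P d).arg u T (Sum.inr i) j = 0 := by
  unfold Prog.arg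
  simp [ext]

end Star

/-- **Circuits give the condition (*)**: if the output of a program is nonzero on all nonzero
vectors whose positive support is a clique and whose sum of coordinates is nonnegative, then
there are vectors satisfying the condition (*) for the join with copies of three points. -/
theorem starC_of_prog {V G : Type} [Fintype V] [Fintype G] [DecidableEq G] {d : ℕ} (hd : 0 < d)
    (adj : V → V → Prop) (P : Prog V G) (a : Fin d → V → ℝ) (b : Fin d → G → ℝ)
    (hF : ∀ u T, P.Val u T → u ≠ 0 → (∀ x y, 0 < u x → 0 < u y → x ≠ y → adj x y) →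
      0 ≤ ∑ v, u v → ∃ c, ∑ v, a c v * u v + ∑ k, b c k * T k ≠ 0) :
    ∃ (E : Type) (_ : AddCommGroup E) (_ : Module ℝ E) (_ : FiniteDimensional ℝ E)
      (w : V ⊕ (((G ⊕ Fin d) × Bool) × Fin 3) → E),
      Module.finrank ℝ E = (d + 2 * Fintype.card ((G ⊕ Fin d) × Bool)) + 1 ∧
      Submodule.span ℝ (Set.range w) = ⊤ ∧ StarC (JoinAdj adj) w := by
  classical
  refine Star.core adj (Star.ext P d) a
    (fun c => Sum.elim (b c) (fun k => if c = k then 1 else 0)) ⟨Sum.inr ⟨0, hd⟩⟩ ?_ ?_
  · intro y
    refine ⟨Sum.elim (fun _ => 0) y, fun c => ?_⟩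
    rw [Fintype.sum_sum_type]
    simp
  · intro u hu hu0 hout
    set T := Star.val (Star.ext P d) u with hT
    have hV : (Star.ext P d).Val u T := Star.val_Val _ u
    have hV1 : P.Val u (fun k => T (Sum.inl k)) := by
      intro i
      have := hV (Sum.inl i)
      rw [Star.arg_ext_inl, Star.arg_ext_inl, Star.arg_ext_inl] at this
      exact this
    have hV2 : ∀ i : Fin d, T (Sum.inr i) = 0 := by
      intro i
      have := hV (Sum.inr i)
      rw [Star.arg_ext_inr, Star.arg_ext_inr, Star.arg_ext_inr, Star.med3_zero] at this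
      exact this
    obtain ⟨c, hc⟩ := hF u _ hV1 hu0 hu.1 hu.2
    apply hc
    have h1 := congrFun hout c
    unfold Star.outF at h1
    rw [Fintype.sum_sum_type] at h1
    rw [← hT] at h1
    simp only [Sum.elim_inl, Sum.elim_inr, hV2, mul_zero, Finset.sum_const_zero, add_zero,
      Pi.zero_apply] at h1
    exact h1

end Pool.LU
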