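import Mathlib

/-!
Density for families of continuous functions closed under a median like operation
(Baker-Pixley argument, no lattice operations, so it applies to families of odd functions).
-/

namespace Pool.LU.Dense

open Set

/-- median of three numbers -/
noncomputable def med3 (a b c : ℝ) : ℝ := max (min a b) (min (max a b) c)

/-- `m` is a majority operation for open intervals: two arguments in the interval force the value
into the interval -/
def Maj (m : ℝ → ℝ → ℝ → ℝ) : Prop :=
  ∀ a b c l u : ℝ, ((a ∈ Ioo l u ∧ b ∈ Ioo l u) ∨ (a ∈ Ioo l u ∧ c ∈ Ioo l u) ∨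
    (b ∈ Ioo l u ∧ c ∈ Ioo l u)) → m a b c ∈ Ioo l u

theorem maj_med3 : Maj med3 := by
  intro a b c l u h
  unfold med3
  simp only [mem_Ioo] at h ⊢
  rcases le_total a b with hab | hab <;> rcases le_total b c with hbc | hbc <;>
    rcases le_total a c with hac | hac <;>
    simp only [min_eq_left, min_eq_right, max_eq_left, max_eq_right, hab, hbc, hac] <;>
    rcases h with ⟨h1, h2⟩ | ⟨h1, h2⟩ | ⟨h1, h2⟩ <;>
    constructor <;> linarith [h1.1, h1.2, h2.1, h2.2]

variable {X : Type*}

/-- combinatorial core: a finite family such that any two points have a common good member yields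
one member of the closure which is good everywhere -/
theorem core {m : ℝ → ℝ → ℝ → ℝ} (hm : Maj m) (L : Set (X → ℝ))
    (hL : ∀ a ∈ L, ∀ b ∈ L, ∀ c ∈ L, (fun x => m (a x) (b x) (c x)) ∈ L)
    (g : X → ℝ) (ε : ℝ) (H : Finset (X → ℝ)) (hH : ∀ h ∈ H, h ∈ L) (hne : L.Nonempty)
    (h2 : ∀ x y : X, ∃ h ∈ H, |h x - g x| < ε ∧ |h y - g y| < ε) :
    ∃ h ∈ L, ∀ x, |h x - g x| < ε := by
  classical
  -- type of a point
  let ty : X → Finset (X → ℝ) := fun x => H.filter (fun h => |h x - g x| < ε)
  have hty : ∀ x h, h ∈ ty x ↔ h ∈ H ∧ |h x - g x| < ε := by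
    intro x h; simp [ty]
  -- induction over finite sets of types
  have key : ∀ n : ℕ, ∀ I : Finset (Finset (X → ℝ)), I.card = n →
      (∀ t ∈ I, ∃ x, ty x = t) → ∃ h ∈ L, ∀ x, ty x ∈ I → |h x - g x| < ε := by
    intro n
    induction n using Nat.strong_induction_on with
    | _ n ih =>
      intro I hI hreal
      by_cases hn : n ≤ 2
      · -- at most two types
        rcases Nat.lt_or_ge n 1 with h0 | h1
        · obtain ⟨h, hh⟩ := hne
          refine ⟨h, hh, fun x hx => ?_⟩
          have : I = ∅ := Finset.card_eq_zero.mp (by omega)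
          rw [this] at hx
          simp at hx
        · rcases Nat.lt_or_ge n 2 with h1' | h2'
          · have hc : I.card = 1 := by omega
            obtain ⟨t, ht⟩ := Finset.card_eq_one.mp hc
            obtain ⟨x, hx⟩ := hreal t (by rw [ht]; simp)
            obtain ⟨h, hh, ha, hb⟩ := h2 x x
            refine ⟨h, hH h hh, fun y hy => ?_⟩
            rw [ht, Finset.mem_singleton] at hy
            have : h ∈ ty y := by rw [hy, ← hx]; exact (hty x h).2 ⟨hh, ha⟩
            exact ((hty y h).1 this).2
          · have hc : I.card = 2 := by omega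
            obtain ⟨t, t', htt, ht⟩ := Finset.card_eq_two.mp hc
            obtain ⟨x, hx⟩ := hreal t (by rw [ht]; simp)
            obtain ⟨x', hx'⟩ := hreal t' (by rw [ht]; simp)
            obtain ⟨h, hh, ha, hb⟩ := h2 x x'
            refine ⟨h, hH h hh, fun y hy => ?_⟩
            rw [ht, Finset.mem_insert, Finset.mem_singleton] at hy
            rcases hy with hy | hy
            · have : h ∈ ty y := by rw [hy, ← hx]; exact (hty x h).2 ⟨hh, ha⟩
              exact ((hty y h).1 this).2
            · have : h ∈ ty y := by rw [hy, ← hx']; exact (hty x' h).2 ⟨hh, hb⟩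
              exact ((hty y h).1 this).2
      · push Not at hn
        obtain ⟨a, ha, b, hb, c, hc, hab, hac, hbc⟩ :=
          Finset.two_lt_card.mp (by omega : 2 < I.card)
        have step : ∀ t ∈ I, ∃ h ∈ L, ∀ x, ty x ∈ I → ty x ≠ t → |h x - g x| < ε := by
          intro t ht
          obtain ⟨h, hh, hh'⟩ := ih (n - 1) (by omega) (I.erase t)
            (by rw [Finset.card_erase_of_mem ht, hI])
            (fun s hs => hreal s (Finset.mem_of_mem_erase hs))
          exact ⟨h, hh, fun x hx hne => hh' x (Finset.mem_erase.2 ⟨hne, hx⟩)⟩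
        obtain ⟨ha', hA, hA'⟩ := step a ha
        obtain ⟨hb', hB, hB'⟩ := step b hb
        obtain ⟨hc', hC, hC'⟩ := step c hc
        refine ⟨_, hL _ hA _ hB _ hC, fun x hx => ?_⟩
        have conv : ∀ r : ℝ, |r - g x| < ε ↔ r ∈ Ioo (g x - ε) (g x + ε) := by
          intro r
          rw [abs_lt, mem_Ioo]
          constructor <;> rintro ⟨h1, h2⟩ <;> constructor <;> linarith
        rw [conv]
        apply hm
        by_cases hxa : ty x = a
        · right; right
          exact ⟨(conv _).1 (hB' x hx (by rw [hxa]; exact hab)),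
            (conv _).1 (hC' x hx (by rw [hxa]; exact hac))⟩
        · by_cases hxb : ty x = b
          · right; left
            exact ⟨(conv _).1 (hA' x hx hxa),
              (conv _).1 (hC' x hx (by rw [hxb]; exact hbc))⟩
          · left
            exact ⟨(conv _).1 (hA' x hx hxa), (conv _).1 (hB' x hx hxb)⟩
  -- all realised types
  have hfin : (Set.range ty).Finite :=
    (H.powerset.finite_toSet).subset (by
      rintro _ ⟨x, rfl⟩
      exact Finset.mem_coe.2 (Finset.mem_powerset.2 (Finset.filter_subset _ _)))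
  obtain ⟨h, hh, hh'⟩ := key _ hfin.toFinset rfl (by
    intro t ht
    simpa using ht)
  exact ⟨h, hh, fun x => hh' x (by simp)⟩

/-- **Density.** `X` compact, `L` a family of continuous functions closed under a majority
operation, which interpolates `g` at any two points: then `L` approximates `g` uniformly. -/
theorem dense [TopologicalSpace X] [CompactSpace X] {m : ℝ → ℝ → ℝ → ℝ} (hm : Maj m)
    (L : Set (X → ℝ)) (hcont : ∀ h ∈ L, Continuous h)
    (hL : ∀ a ∈ L, ∀ b ∈ L, ∀ c ∈ L, (fun x => m (a x) (b x) (c x)) ∈ L)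
    (hne : L.Nonempty) (g : X → ℝ) (hg : Continuous g)
    (h2 : ∀ p q : X, ∃ h ∈ L, h p = g p ∧ h q = g q) (ε : ℝ) (hε : 0 < ε) :
    ∃ h ∈ L, ∀ x, |h x - g x| < ε := by
  classical
  -- choose interpolants
  choose f hfL hfp hfq using h2
  let U : X → X → Set X := fun p q => {x | |f p q x - g x| < ε}
  have hUo : ∀ p q, IsOpen (U p q) := by
    intro p q
    have hc : Continuous fun x => |f p q x - g x| := ((hcont _ (hfL p q)).sub hg).abs
    exact isOpen_lt hc continuous_const
  have hUp : ∀ p q, p ∈ U p q := fun p q => by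
    change |f p q p - g p| < ε
    rw [hfp, sub_self, abs_zero]; exact hε
  have hUq : ∀ p q, q ∈ U p q := fun p q => by
    change |f p q q - g q| < ε
    rw [hfq, sub_self, abs_zero]; exact hε
  -- for fixed `p`
  have h1 : ∀ p : X, ∃ T : Finset X, ∃ N : Set X, IsOpen N ∧ p ∈ N ∧
      ∀ x ∈ N, ∀ y : X, ∃ q ∈ T, x ∈ U p q ∧ y ∈ U p q := by
    intro p
    obtain ⟨T, hT⟩ := isCompact_univ.elim_finite_subcover (U p) (hUo p)
      (fun q _ => mem_iUnion.2 ⟨q, hUq p q⟩)
    refine ⟨T, ⋂ q ∈ T, U p q, ?_, ?_, ?_⟩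
    · exact isOpen_biInter_finset (fun q _ => hUo p q)
    · exact mem_iInter₂.2 (fun q _ => hUp p q)
    · intro x hx y
      obtain ⟨q, hq, hy⟩ := mem_iUnion₂.1 (hT (mem_univ y))
      exact ⟨q, hq, mem_iInter₂.1 hx q hq, hy⟩
  choose T N hNo hpN hTN using h1
  obtain ⟨P, hP⟩ := isCompact_univ.elim_finite_subcover N hNo
    (fun p _ => mem_iUnion.2 ⟨p, hpN p⟩)
  refine core hm L hL g ε (P.biUnion fun p => (T p).image (f p)) ?_ hne ?_
  · intro h hh
    obtain ⟨p, _, hh⟩ := Finset.mem_biUnion.1 hh
    obtain ⟨q, _, rfl⟩ := Finset.mem_image.1 hh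
    exact hfL p q
  · intro x y
    obtain ⟨p, hp, hx⟩ := mem_iUnion₂.1 (hP (mem_univ x))
    obtain ⟨q, hq, hxU, hyU⟩ := hTN p x hx y
    exact ⟨f p q, Finset.mem_biUnion.2 ⟨p, hp, Finset.mem_image.2 ⟨q, hq, rfl⟩⟩, hxU, hyU⟩

end Pool.LU.Dense
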